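import Pool.Agent.Helper43.GD.St

/-!
PROJECT GD (MP_b3ce06_al), module PB: reduction of the finiteness of the group to the quotient by the
finite normal subgroup generated by `K = a⁻¹ a_1⁻¹ a a_1`.
-/

set_option autoImplicit false

namespace Pool.Agent.Helper18.GD

open Pool.Agent.Helper43.GD

theorem PB_map_cj {G H : Type} [Group G] [Group H] (f : G →* H) (a t : G) (i : ℤ) :
    f (cj a t i) = cj (f a) (f t) i := by
  simp only [cj, map_mul, map_zpow]

theorem PB_map_Rel {G H : Type} [Group G] [Group H] (f : G →* H) (M : ℕ) (a w t : G)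
    (h : Rel M a w t) : Rel M (f a) (f w) (f t) := by
  obtain ⟨h1, h2, h3⟩ := h
  refine ⟨?_, ?_, ?_⟩
  · have h := congrArg f h1
    simpa only [map_mul, map_inv, PB_map_cj] using h
  · have h := congrArg f h2
    simpa only [map_mul, map_inv] using h
  · have h := congrArg f h3
    simpa only [map_mul, PB_map_cj] using h

/-- if the three generators conjugate `K` into `{K, K⁻¹}` then `⟨K⟩` is normal -/
theorem PB_normal {G : Type} [Group G] (a w t K : G) (ha : a * K = K * a) (hw : w * K = K * w)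
    (ht : t⁻¹ * K * t = K⁻¹) (hg : Subgroup.closure {a, w, t} = (⊤ : Subgroup G)) :
    (Subgroup.zpowers K).Normal := by
  have key : ∀ g : G, g * K * g⁻¹ = K ∨ g * K * g⁻¹ = K⁻¹ := by
    intro g
    have hmem : g ∈ Subgroup.closure ({a, w, t} : Set G) := by
      rw [hg]
      exact Subgroup.mem_top g
    induction hmem using Subgroup.closure_induction with
    | mem x hx =>
      simp only [Set.mem_insert_iff, Set.mem_singleton_iff] at hx
      rcases hx with rfl | rfl | rfl
      · left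
        rw [ha, mul_inv_cancel_right]
      · left
        rw [hw, mul_inv_cancel_right]
      · right
        have h1 : (x⁻¹ * K * x)⁻¹ = K := by rw [ht, inv_inv]
        calc x * K * x⁻¹ = x * (x⁻¹ * K * x)⁻¹ * x⁻¹ := by rw [h1]
          _ = K⁻¹ := by group
    | one => left; group
    | mul x y _ _ hx hy =>
      have e : (x * y) * K * (x * y)⁻¹ = x * (y * K * y⁻¹) * x⁻¹ := by group
      rw [e]
      rcases hy with hy | hy
      · rw [hy]
        exact hx
      · rw [hy]
        have e2 : x * K⁻¹ * x⁻¹ = (x * K * x⁻¹)⁻¹ := by group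
        rw [e2]
        rcases hx with hx | hx
        · right
          rw [hx]
        · left
          rw [hx, inv_inv]
    | inv x _ hx =>
      rcases hx with hx | hx
      · left
        calc x⁻¹ * K * x⁻¹⁻¹ = x⁻¹ * (x * K * x⁻¹) * x := by rw [hx, inv_inv]
          _ = K := by group
      · right
        have h2 : x * K⁻¹ * x⁻¹ = K := by
          have e2 : x * K⁻¹ * x⁻¹ = (x * K * x⁻¹)⁻¹ := by group
          rw [e2, hx, inv_inv]
        calc x⁻¹ * K * x⁻¹⁻¹ = x⁻¹ * (x * K⁻¹ * x⁻¹) * x := by rw [h2, inv_inv]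
          _ = K⁻¹ := by group
  refine ⟨?_⟩
  intro n hn g
  obtain ⟨k, rfl⟩ := Subgroup.mem_zpowers_iff.mp hn
  have e : g * K ^ k * g⁻¹ = (g * K * g⁻¹) ^ k := (conj_zpow).symm
  rw [e]
  rcases key g with h | h
  · rw [h]
    exact Subgroup.zpow_mem_zpowers K k
  · rw [h]
    exact Subgroup.zpow_mem _ (Subgroup.inv_mem _ (Subgroup.mem_zpowers K)) k

/-- MODULE PB -/
theorem hPB (hPA : StPA) (hKB : StKB) (hKC : StKC) : StPB := by
  intro G _ M a w t hM h4 h3 hR hg
  obtain ⟨n, hn, hK⟩ := hKC G M a w t hR hM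
  obtain ⟨ha, hw, ht, -, -⟩ := hKB G M a w t _ hR rfl
  have hN := PB_normal a w t _ ha hw ht hg
  have hfin : Finite (Subgroup.zpowers (a⁻¹ * (cj a t 1)⁻¹ * a * cj a t 1)) := by
    have ho : IsOfFinOrder (a⁻¹ * (cj a t 1)⁻¹ * a * cj a t 1) :=
      isOfFinOrder_iff_pow_eq_one.mpr ⟨n, hn, hK⟩
    exact ho.finite_zpowers
  have hq : Finite (G ⧸ Subgroup.zpowers (a⁻¹ * (cj a t 1)⁻¹ * a * cj a t 1)) := by
    have hR' := PB_map_Rel (QuotientGroup.mk' (Subgroup.zpowers (a⁻¹ * (cj a t 1)⁻¹ * a * cj a t 1)))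
      M a w t hR
    refine hPA _ M _ _ _ hM h4 h3 hR' ?_ ?_
    · rw [← PB_map_cj, ← map_mul, ← map_mul]
      have hone : QuotientGroup.mk' (Subgroup.zpowers (a⁻¹ * (cj a t 1)⁻¹ * a * cj a t 1))
          (a⁻¹ * (cj a t 1)⁻¹ * a * cj a t 1) = 1 := by
        rw [← MonoidHom.mem_ker, QuotientGroup.ker_mk']
        exact Subgroup.mem_zpowers _
      have e : a * cj a t 1 = cj a t 1 * a * (a⁻¹ * (cj a t 1)⁻¹ * a * cj a t 1) := by group
      rw [show QuotientGroup.mk' (Subgroup.zpowers (a⁻¹ * (cj a t 1)⁻¹ * a * cj a t 1))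
          (a * cj a t 1) = QuotientGroup.mk' (Subgroup.zpowers (a⁻¹ * (cj a t 1)⁻¹ * a * cj a t 1))
          (cj a t 1 * a * (a⁻¹ * (cj a t 1)⁻¹ * a * cj a t 1)) from congrArg _ e,
        map_mul _ (cj a t 1 * a), hone, mul_one]
    · have hs := QuotientGroup.mk'_surjective
        (Subgroup.zpowers (a⁻¹ * (cj a t 1)⁻¹ * a * cj a t 1))
      have h := Subgroup.map_top_of_surjective _ hs
      rw [← hg, MonoidHom.map_closure] at h
      rw [← h]
      congr 1
      simp only [Set.image_insert_eq, Set.image_singleton]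
  exact Finite.of_subgroup_quotient (Subgroup.zpowers (a⁻¹ * (cj a t 1)⁻¹ * a * cj a t 1))

end Pool.Agent.Helper18.GD
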